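import Mathlib
import Pool.Agent.Expand.Defs
import Pool.Agent.Expand.Main

set_option autoImplicit false

namespace Pool.Agent.Results.MP_c0b923_gt.MinTwoSqrt

open Pool.Agent.Expand

/-- Every expanding map from the cube `[-1,1]^n` into a closed ball of radius `r` of Euclidean
`n`-space satisfies `min 2 √n ≤ r`. -/
theorem result (n : ℕ) (f : EuclideanSpace ℝ (Fin n) → EuclideanSpace ℝ (Fin n))
    (hf : IsExpandingOn f (cube n)) (p : EuclideanSpace ℝ (Fin n)) (r : ℝ)
    (h : Set.MapsTo f (cube n) (Metric.closedBall p r)) : min 2 (Real.sqrt n) ≤ r :=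
  min_two_sqrt_le f hf p r h

end Pool.Agent.Results.MP_c0b923_gt.MinTwoSqrt
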