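import Mathlib
import Pool.Agent.Expand.Defs
import Pool.Agent.CubeE.MainO

set_option autoImplicit false

namespace Pool.Agent.Results.MP_c0b923_gt.OddMaps

open Pool.Agent.Expand

/-- Every expanding map from the cube `[-1,1]^n` into a closed ball of radius `r` of Euclidean
`n`-space which is compatible with the central symmetries (`f (-x) + f x` is constant, for
instance `f` odd) satisfies `r ≥ √n`. -/
theorem result (n : ℕ) (f : EuclideanSpace ℝ (Fin n) → EuclideanSpace ℝ (Fin n))
    (hf : IsExpandingOn f (cube n)) (c : EuclideanSpace ℝ (Fin n))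
    (hodd : ∀ x ∈ cube n, f (-x) + f x = c)
    (p : EuclideanSpace ℝ (Fin n)) (r : ℝ)
    (h : Set.MapsTo f (cube n) (Metric.closedBall p r)) : Real.sqrt n ≤ r := by
  set d : EuclideanSpace ℝ (Fin n) := (1 / 2 : ℝ) • c with hd
  have hdd : d + d = c := by
    rw [hd, ← add_smul]
    norm_num
  have h1 : IsExpandingOn (fun x => f x - d) (cube n) := by
    refine ⟨hf.1.sub continuousOn_const, fun x hx => ?_⟩
    obtain ⟨U, hU, hUe⟩ := hf.2 x hx
    refine ⟨U, hU, fun y hy z hz => ?_⟩
    rw [dist_sub_right]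
    exact hUe y hy z hz
  have h2 : ∀ x ∈ cube n, f (-x) - d = -(f x - d) := by
    intro x hx
    have h3 := hodd x hx
    have h4 : f (-x) = c - f x := eq_sub_of_add_eq h3
    rw [h4, ← hdd]
    abel
  refine Pool.Agent.CubeE.odd_sqrt_le (fun x => f x - d) h1 h2 (p - d) r fun x hx => ?_
  have h5 := h hx
  rw [Metric.mem_closedBall] at h5 ⊢
  rw [dist_sub_right]
  exact h5

end Pool.Agent.Results.MP_c0b923_gt.OddMaps
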